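import Pool.Agent.H66.ER2.Targets

/-!
# MP_816b90_co: elementary facts on a shortest outer path
-/

set_option autoImplicit false

namespace Pool.Agent.H58.ER2

open Pool.Agent.H48.ER Pool.Agent.H52.ER2 Pool.Agent.H66.ER2

variable {V : Type} {G : SimpleGraph V}

/-- an outer path `p, z i, .., z j, q` -/
theorem splice {v : V} {n : ℕ} {z : ℕ → V} (h : Ou G v n z) {p q : V} {i j : ℕ} (hi : 0 < i)
    (hij : i ≤ j) (hj : j < n) (vp : G.Adj v p) (vq : G.Adj v q) (hpq : p ≠ q)
    (npq : ¬ G.Adj p q) (hp : ∀ t, i ≤ t → t ≤ j → (G.Adj p (z t) ↔ t = i))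
    (hq : ∀ t, i ≤ t → t ≤ j → (G.Adj q (z t) ↔ t = j)) :
    ∃ g : ℕ → V, Ou G v (j - i + 2) g := by
  let g : ℕ → V := fun t => if t = 0 then p else if t ≤ j - i + 1 then z (i + t - 1) else q
  have g0 : g 0 = p := by simp [g]
  have g1 : ∀ t, 0 < t → t ≤ j - i + 1 → g t = z (i + t - 1) := by
    intro t h1 h2
    simp only [g]
    rw [if_neg (by omega), if_pos h2]
  have g2 : g (j - i + 2) = q := by
    simp only [g]
    rw [if_neg (by omega), if_neg (by omega)]
  have hpz : ∀ t, 0 < t → t < n → p ≠ z t := by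
    intro t h1 h2 e
    exact (h.int t h1 h2).2 (e ▸ vp)
  have hqz : ∀ t, 0 < t → t < n → q ≠ z t := by
    intro t h1 h2 e
    exact (h.int t h1 h2).2 (e ▸ vq)
  have key : ∀ s, s ≤ j - i + 2 → s = 0 ∨ (0 < s ∧ s ≤ j - i + 1) ∨ s = j - i + 2 := by
    intro s hs
    omega
  refine ⟨g, ⟨⟨?_, ?_⟩, by omega, ?_, ?_, ?_⟩⟩
  · intro s t hs ht e
    rcases key s hs with rfl | ⟨h1, h2⟩ | rfl <;> rcases key t ht with rfl | ⟨h3, h4⟩ | rfl
    · rfl
    · rw [g0, g1 t h3 h4] at e
      exact absurd e (hpz _ (by omega) (by omega))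
    · rw [g0, g2] at e
      exact absurd e hpq
    · rw [g0, g1 s h1 h2] at e
      exact absurd e.symm (hpz _ (by omega) (by omega))
    · rw [g1 s h1 h2, g1 t h3 h4] at e
      have := h.pf.inj _ _ (by omega) (by omega) e
      omega
    · rw [g1 s h1 h2, g2] at e
      exact absurd e.symm (hqz _ (by omega) (by omega))
    · rw [g0, g2] at e
      exact absurd e.symm hpq
    · rw [g2, g1 t h3 h4] at e
      exact absurd e (hqz _ (by omega) (by omega))
    · rfl
  · intro s t hs ht
    rcases key s hs with rfl | ⟨h1, h2⟩ | rfl <;> rcases key t ht with rfl | ⟨h3, h4⟩ | rfl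
    · constructor
      · intro e
        exact absurd e (G.loopless.irrefl _)
      · intro e
        omega
    · rw [g0, g1 t h3 h4, hp _ (by omega) (by omega)]
      omega
    · rw [g0, g2]
      constructor
      · intro e
        exact absurd e npq
      · intro e
        omega
    · rw [g0, g1 s h1 h2, SimpleGraph.adj_comm, hp _ (by omega) (by omega)]
      omega
    · rw [g1 s h1 h2, g1 t h3 h4, h.pf.adj _ _ (by omega) (by omega)]
      omega
    · rw [g2, g1 s h1 h2, SimpleGraph.adj_comm, hq _ (by omega) (by omega)]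
      omega
    · rw [g0, g2]
      constructor
      · intro e
        exact absurd e.symm npq
      · intro e
        omega
    · rw [g2, g1 t h3 h4, hq _ (by omega) (by omega)]
      omega
    · constructor
      · intro e
        exact absurd e (G.loopless.irrefl _)
      · intro e
        omega
  · rw [g0]
    exact vp
  · rw [g2]
    exact vq
  · intro t h1 h2
    rw [g1 t h1 (by omega)]
    exact h.int _ (by omega) (by omega)

/-- the first neighbour -/
theorem firstNb {n : ℕ} {z : ℕ → V} {c : V} (h : ∃ w ∈ Wz n z, G.Adj c w) :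
    ∃ i, 0 < i ∧ i < n ∧ G.Adj c (z i) ∧ ∀ t, 0 < t → t < i → ¬ G.Adj c (z t) := by
  classical
  have h1 : ∃ i, 0 < i ∧ i < n ∧ G.Adj c (z i) := by
    obtain ⟨w, ⟨i, h1, h2, rfl⟩, h3⟩ := h
    exact ⟨i, h1, h2, h3⟩
  refine ⟨Nat.find h1, (Nat.find_spec h1).1, (Nat.find_spec h1).2.1, (Nat.find_spec h1).2.2, ?_⟩
  intro t h2 h3 h4
  have := Nat.find_min h1 h3
  exact this ⟨h2, lt_trans h3 (Nat.find_spec h1).2.1, h4⟩

/-- the last neighbour -/
theorem lastNb {n : ℕ} {z : ℕ → V} {c : V} (h : ∃ w ∈ Wz n z, G.Adj c w) :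
    ∃ i, 0 < i ∧ i < n ∧ G.Adj c (z i) ∧ ∀ t, i < t → t < n → ¬ G.Adj c (z t) := by
  have h1 : ∃ w ∈ Wz n (fun i => z (n - i)), G.Adj c w := by
    obtain ⟨w, ⟨i, h1, h2, rfl⟩, h3⟩ := h
    refine ⟨z i, ⟨n - i, by omega, by omega, ?_⟩, h3⟩
    show z (n - (n - i)) = z i
    rw [show n - (n - i) = i by omega]
  obtain ⟨i, h2, h3, h4, h5⟩ := firstNb h1
  refine ⟨n - i, by omega, by omega, h4, ?_⟩
  intro t h6 h7 h8
  refine h5 (n - t) (by omega) (by omega) ?_
  show G.Adj c (z (n - (n - t)))
  rw [show n - (n - t) = t by omega]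
  exact h8

/-- (FAB) elementary facts on a shortest outer path. -/
theorem pf_FAB (hOUE : T_OUE) : T_FAB := by
  intro V G v n z hN hF hs
  have hO : Ou G v n z := hs.toOu
  obtain ⟨he, h4⟩ := hOUE V G v n z hN hF hO
  have hz1 : z 1 ≠ v ∧ ¬ G.Adj v (z 1) := hO.int 1 (by omega) (by omega)
  have hzn : z (n - 1) ≠ v ∧ ¬ G.Adj v (z (n - 1)) := hO.int (n - 1) (by omega) (by omega)
  have hab : ∀ a ∈ sA G v n z, ∀ b ∈ sB G v n z, a ≠ b ∧ ¬ G.Adj a b := by
    intro a ha b hb
    have hne : a ≠ b := by
      rintro rfl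
      exact ha.2.2 (n - 1) (by omega) (by omega) hb.2.1
    refine ⟨hne, fun hadj => ?_⟩
    have haz : ∀ t, 0 < t → t < n → a ≠ z t := by
      intro t h1 h2 e
      exact (hO.int t h1 h2).2 (e ▸ ha.1)
    have hbz : ∀ t, 0 < t → t < n → b ≠ z t := by
      intro t h1 h2 e
      exact (hO.int t h1 h2).2 (e ▸ hb.1)
    have hA : ∀ t, 0 < t → t < n → (G.Adj a (z t) ↔ t = 1) := by
      intro t h1 h2
      constructor
      · intro e
        by_contra h3
        exact ha.2.2 t (by omega) h2 e
      · rintro rfl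
        exact ha.2.1
    have hB : ∀ t, 0 < t → t < n → (G.Adj b (z t) ↔ t = n - 1) := by
      intro t h1 h2
      constructor
      · intro e
        by_contra h3
        exact hb.2.2 t h1 (by omega) e
      · rintro rfl
        exact hb.2.1
    let g : ℕ → V := fun t => if t < n - 1 then z (t + 1) else b
    have g1 : ∀ t, t < n - 1 → g t = z (t + 1) := by
      intro t h1
      simp only [g]
      rw [if_pos h1]
    have g2 : g (n - 1) = b := by
      simp only [g]
      rw [if_neg (by omega)]
    have key : ∀ s, s ≤ n - 1 → s < n - 1 ∨ s = n - 1 := by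
      intro s hs
      omega
    have hip : IP G (n - 1) (z 1) b {w | ∃ i, i ≤ n - 1 ∧ g i = w} := by
      refine ⟨g, ?_, g2, ?_, ?_, rfl⟩
      · rw [g1 0 (by omega)]
      · intro s t hs ht e
        rcases key s hs with h1 | rfl <;> rcases key t ht with h2 | rfl
        · rw [g1 s h1, g1 t h2] at e
          have := hO.pf.inj _ _ (by omega) (by omega) e
          omega
        · rw [g1 s h1, g2] at e
          exact absurd e.symm (hbz _ (by omega) (by omega))
        · rw [g2, g1 t h2] at e
          exact absurd e (hbz _ (by omega) (by omega))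
        · rfl
      · intro s t hs ht
        rcases key s hs with h1 | rfl <;> rcases key t ht with h2 | rfl
        · rw [g1 s h1, g1 t h2, hO.pf.adj _ _ (by omega) (by omega)]
          omega
        · rw [g1 s h1, g2, SimpleGraph.adj_comm, hB _ (by omega) (by omega)]
          omega
        · rw [g2, g1 t h2, hB _ (by omega) (by omega)]
          omega
        · constructor
          · intro e
            exact absurd e (G.loopless.irrefl _)
          · intro e
            omega
    have hev := hN (n - 1) (z 1) b a _ hip (by omega) ?_ ha.2.1 hadj ?_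
    · rw [Nat.even_iff] at hev he
      omega
    · rintro ⟨i, h1, h2⟩
      rcases key i h1 with h3 | rfl
      · rw [g1 i h3] at h2
        exact haz _ (by omega) (by omega) h2.symm
      · rw [g2] at h2
        exact hne h2.symm
    · rintro w ⟨i, h1, rfl⟩ h2
      rcases key i h1 with h3 | rfl
      · rw [g1 i h3] at h2 ⊢
        rw [hA _ (by omega) (by omega)] at h2
        left
        rw [h2]
      · right
        exact g2
  refine ⟨⟨hO.left, ?_, ?_⟩, ⟨hO.right, ?_, ?_⟩, ?_, ?_, hab, ?_⟩
  · rw [hO.pf.adj _ _ (by omega) (by omega)]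
    omega
  · intro i h1 h2
    rw [hO.pf.adj _ _ (by omega) (by omega)]
    omega
  · rw [hO.pf.adj _ _ (by omega) (by omega)]
    omega
  · intro i h1 h2
    rw [hO.pf.adj _ _ (by omega) (by omega)]
    omega
  · intro a ha b hb hne
    exact hF (z 1) hz1.1 (fun e => hz1.2 e.symm) a b ha.1 hb.1 ha.2.1.symm hb.2.1.symm hne
  · intro a ha b hb hne
    exact hF (z (n - 1)) hzn.1 (fun e => hzn.2 e.symm) a b ha.1 hb.1 ha.2.1.symm hb.2.1.symm hne
  · intro c vc cA cB hsee d hd
    by_contra hcd
    rcases hd with hd | hd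
    · obtain ⟨i, h1, h2, h3, h5⟩ := firstNb hsee
      have hsp := splice hO (p := d) (q := c) (i := 1) (j := i) (by omega) (by omega) h2
        hd.1 vc (fun e => cA (e ▸ hd)) (fun e => hcd e.symm) ?_ ?_
      · obtain ⟨g, hg⟩ := hsp
        have h6 := hs.mn _ _ hg
        have h7 : i = n - 1 := by omega
        subst h7
        exact cB ⟨vc, h3, fun t ht1 ht2 => h5 t ht1 (by omega)⟩
      · intro t ht1 ht2
        constructor
        · intro e
          by_contra h6
          exact hd.2.2 t (by omega) (by omega) e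
        · rintro rfl
          exact hd.2.1
      · intro t ht1 ht2
        constructor
        · intro e
          by_contra h6
          exact h5 t (by omega) (by omega) e
        · rintro rfl
          exact h3
    · obtain ⟨i, h1, h2, h3, h5⟩ := lastNb hsee
      have hsp := splice hO (p := c) (q := d) (i := i) (j := n - 1) h1 (by omega) (by omega)
        vc hd.1 (fun e => cB (e ▸ hd)) hcd ?_ ?_
      · obtain ⟨g, hg⟩ := hsp
        have h6 := hs.mn _ _ hg
        have h7 : i = 1 := by omega
        subst h7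
        exact cA ⟨vc, h3, fun t ht1 ht2 => h5 t ht1 ht2⟩
      · intro t ht1 ht2
        constructor
        · intro e
          by_contra h6
          exact h5 t (by omega) (by omega) e
        · rintro rfl
          exact h3
      · intro t ht1 ht2
        constructor
        · intro e
          by_contra h6
          exact hd.2.2 t (by omega) (by omega) e
        · rintro rfl
          exact hd.2.1

end Pool.Agent.H58.ER2
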