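import Pool.Agent.H66.ER2.Targets

/-!
# MP_816b90_co: case 1 of the good pairs
-/

set_option autoImplicit false

namespace Pool.Agent.H58.ER2

open Pool.Agent.H48.ER Pool.Agent.H52.ER2 Pool.Agent.H66.ER2

/-- (GC1) case 1. -/
theorem pf_GC1 (hOUE : T_OUE) (hGFL : T_GFL) (hGSD : T_GSD) : T_GC1 := by
  intro V G v k z l r n m a1 x b1 y a2 b2 a3 b3 L R P Q hg ho hl hr
  obtain ⟨he, h4⟩ := hOUE V G v k z hg.cls.noh hg.f1 hg.so.toOu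
  obtain ⟨i, hi0, hik, hi2, hie, hin, hia⟩ := hGSD V G v k z l r n m a1 x b1 y a2 b2 a3 b3
    L R P Q hg ho hl
  obtain ⟨hg', -, ho'⟩ := hGFL V G v k z l r n m a1 x b1 y a2 b2 a3 b3 L R P Q hg
  obtain ⟨j, hj0, hjk, hj2, hje, hjn, hja⟩ := hGSD V G v k _ r l n m b1 y a1 x b2 a2 b3 a3
    R L P Q hg' (ho' ho).1 hr
  have ha2 : a2 ∈ P := by
    obtain ⟨g, g0, -, -, -, hR⟩ := hg.sp.ipP
    rw [hR]
    exact ⟨0, by omega, g0⟩
  have hb2 : b2 ∈ P := by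
    obtain ⟨g, -, gn, -, -, hR⟩ := hg.sp.ipP
    rw [hR]
    exact ⟨n, le_refl _, gn⟩
  have ha3 : a3 ∈ Q := by
    obtain ⟨g, g0, -, -, -, hR⟩ := hg.sp.ipQ
    rw [hR]
    exact ⟨0, by omega, g0⟩
  have hb3 : b3 ∈ Q := by
    obtain ⟨g, -, gn, -, -, hR⟩ := hg.sp.ipQ
    rw [hR]
    exact ⟨m, le_refl _, gn⟩
  have hn : 0 < n := hg.sp.oP.pos
  have hm : 0 < m := hg.sp.oQ.pos
  have hab2 : a2 ≠ b2 := by
    obtain ⟨g, g0, gn, gi, -, -⟩ := hg.sp.ipP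
    intro e
    have := gi 0 n (by omega) (le_refl _) (by rw [g0, gn, e])
    omega
  have hab3 : a3 ≠ b3 := by
    obtain ⟨g, g0, gn, gi, -, -⟩ := hg.sp.ipQ
    intro e
    have := gi 0 m (by omega) (le_refl _) (by rw [g0, gn, e])
    omega
  have hne : ∀ a ∈ P, ∀ b ∈ Q, a ≠ b := fun a ha b hb hab =>
    Set.disjoint_left.1 hg.sp.dPQ ha (hab ▸ hb)
  have hex : ∃ w ∈ P ∪ Q, (w = a2 ∨ w = a3) ∧ ∀ u ∈ P ∪ Q, G.Adj (z i) u ↔ u = w := by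
    rcases hia with h | h
    · exact ⟨a2, Or.inl ha2, Or.inl rfl, h.1⟩
    · exact ⟨a3, Or.inr ha3, Or.inr rfl, h.1⟩
  have hex' : ∃ w ∈ P ∪ Q, (w = b2 ∨ w = b3) ∧ ∀ u ∈ P ∪ Q, G.Adj (z (k - j)) u ↔ u = w := by
    rcases hja with h | h
    · exact ⟨b2, Or.inl hb2, Or.inl rfl, h.1⟩
    · exact ⟨b3, Or.inr hb3, Or.inr rfl, h.1⟩
  obtain ⟨w, hw, hwa, hwn⟩ := hex
  obtain ⟨w', hw', hwb, hwn'⟩ := hex'
  have hij : i ≤ k - j := by
    by_contra hc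
    refine hjn (k - i) (by omega) (by omega) w hw ?_
    show G.Adj (z (k - (k - i))) w
    rw [show k - (k - i) = i by omega]
    exact (hwn w hw).2 rfl
  have h5 : k - j = i := by omega
  rw [h5] at hwn'
  have h6 : w' = w := (hwn w' hw').1 ((hwn' w' hw').2 rfl)
  rcases hwa with rfl | rfl <;> rcases hwb with h | h
  · exact hab2 (h6.symm.trans h)
  · exact hne _ ha2 _ hb3 (h6.symm.trans h)
  · exact hne _ hb2 _ ha3 (h.symm.trans h6)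
  · exact hab3 (h6.symm.trans h)

end Pool.Agent.H58.ER2
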